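import Mathlib

/-!
# Algebraic lemmas on divisors of polynomials without the last variable
-/

set_option autoImplicit false

namespace Pool.Agent.N368.HB

open MvPolynomial

section

variable {d : ℕ}

/-- divisors of polynomials in the `t_b` are polynomials in the `t_b` -/
theorem exists_rename_of_dvd {g : MvPolynomial (Option (Fin d)) ℤ} {c : MvPolynomial (Fin d) ℤ}
    (hc : c ≠ 0) (h : g ∣ rename some c) : ∃ g', g = rename some g' := by
  obtain ⟨q, hq⟩ := h
  have hrc : rename (some : Fin d → Option (Fin d)) c ≠ 0 := by
    intro h0
    exact hc (rename_injective _ (Option.some_injective _) (by rw [h0, map_zero]))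
  have hg : g ≠ 0 := by
    rintro rfl
    rw [zero_mul] at hq
    exact hrc hq
  have hq0 : q ≠ 0 := by
    rintro rfl
    rw [mul_zero] at hq
    exact hrc hq
  have h1 : degreeOf none (rename (some : Fin d → Option (Fin d)) c) = 0 := by
    by_contra h0
    rw [← ne_eq, ← mem_vars_iff_degreeOf_ne_zero] at h0
    obtain ⟨o, _, ho⟩ := mem_vars_rename _ _ h0
    exact Option.some_ne_none o ho
  have h2 : degreeOf none g = 0 := by
    rw [hq, degreeOf_mul_eq hg hq0] at h1
    omega
  obtain ⟨g', hg'⟩ := exists_rename_eq_of_vars_subset_range g (some : Fin d → Option (Fin d))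
    (Option.some_injective _) (by
      intro o ho
      rcases o with _ | o
      · exact absurd h2 (mem_vars_iff_degreeOf_ne_zero.1 ho)
      · exact ⟨o, rfl⟩)
  exact ⟨g', hg'.symm⟩

end

/-- the number of the nonconstant factors is at most the total degree -/
theorem card_filter_le {σ : Type} (s : Multiset (MvPolynomial σ ℤ)) (hs : ∀ f ∈ s, f ≠ 0) :
    (s.filter fun f => 0 < f.totalDegree).card ≤ s.prod.totalDegree := by
  induction s using Multiset.induction_on with
  | empty => simp
  | cons f s ih =>
    have h1 := ih fun g hg => hs g (Multiset.mem_cons_of_mem hg)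
    have hf := hs f (Multiset.mem_cons_self f s)
    have hp : s.prod ≠ 0 := by
      intro h0
      rw [Multiset.prod_eq_zero_iff] at h0
      exact hs 0 (Multiset.mem_cons_of_mem h0) rfl
    rw [Multiset.prod_cons, totalDegree_mul_of_isDomain hf hp, Multiset.filter_cons]
    split_ifs with h2
    · rw [Multiset.card_add, Multiset.card_singleton]
      omega
    · rw [zero_add]
      omega

end Pool.Agent.N368.HB
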