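import Mathlib
import Pool.Agent.N741.HB.Stm
import Pool.Agent.N368.HB.Alg

/-!
# Irreducibility of `h`
-/

set_option autoImplicit false

namespace Pool.Agent.N368.HB

open Filter MvPolynomial Pool.Agent.Y902.GN Pool.Agent.N741.HB

section inp

variable {d : ℕ} {h : MvPolynomial (Option (Fin d)) ℤ}

theorem inP_zero : InP h 0 := ⟨1, one_ne_zero, by rw [mul_zero]; exact dvd_zero h⟩

theorem inP_add {p q : MvPolynomial (Option (Fin d)) ℤ} (hp : InP h p) (hq : InP h q) :
    InP h (p + q) := by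
  obtain ⟨c, hc, a, ha⟩ := hp
  obtain ⟨c', hc', a', ha'⟩ := hq
  refine ⟨c * c', mul_ne_zero hc hc', a * rename some c' + a' * rename some c, ?_⟩
  rw [map_mul]
  linear_combination (rename some c') * ha + (rename some c) * ha'

theorem inP_mul {p : MvPolynomial (Option (Fin d)) ℤ} (r : MvPolynomial (Option (Fin d)) ℤ)
    (hp : InP h p) : InP h (r * p) := by
  obtain ⟨c, hc, a, ha⟩ := hp
  refine ⟨c, hc, a * r, ?_⟩
  linear_combination r * ha

theorem inP_sum {ι : Type} (s : Finset ι) (p : ι → MvPolynomial (Option (Fin d)) ℤ)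
    (hp : ∀ i ∈ s, InP h (p i)) : InP h (∑ i ∈ s, p i) := by
  classical
  induction s using Finset.induction_on with
  | empty => rw [Finset.sum_empty]; exact inP_zero
  | insert i s hi ih =>
    rw [Finset.sum_insert hi]
    exact inP_add (hp i (Finset.mem_insert_self i s))
      (ih fun j hj => hp j (Finset.mem_insert_of_mem hj))

theorem inP_of_mul {p : MvPolynomial (Option (Fin d)) ℤ} {c : MvPolynomial (Fin d) ℤ}
    (hc : c ≠ 0) (hp : InP h (rename some c * p)) : InP h p := by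
  obtain ⟨c', hc', a, ha⟩ := hp
  refine ⟨c' * c, mul_ne_zero hc' hc, a, ?_⟩
  rw [map_mul, mul_assoc]
  exact ha

theorem irr_of_factor (h0 : h ≠ 0) (h1 : ¬ InP h 1) {f : MvPolynomial (Option (Fin d)) ℤ}
    (hf : Irreducible f) {g : MvPolynomial (Fin d) ℤ} (hg : h = f * rename some g) : Irr h := by
  refine ⟨h0, h1, ?_⟩
  rintro p q ⟨c, hc, hd⟩
  have hg0 : g ≠ 0 := by
    rintro rfl
    rw [map_zero, mul_zero] at hg
    exact h0 hg
  have hpr : Prime f := UniqueFactorizationMonoid.irreducible_iff_prime.1 hf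
  have h2 : f ∣ rename some c * (p * q) := (Dvd.intro _ hg.symm).trans hd
  rcases hpr.dvd_or_dvd h2 with h3 | h3
  · exfalso
    apply h1
    refine ⟨c * g, mul_ne_zero hc hg0, ?_⟩
    rw [map_mul, mul_one, hg]
    exact mul_dvd_mul_right h3 _
  · rcases hpr.dvd_or_dvd h3 with h4 | h4
    · left
      refine ⟨g, hg0, ?_⟩
      rw [hg, mul_comm]
      exact mul_dvd_mul_left _ h4
    · right
      refine ⟨g, hg0, ?_⟩
      rw [hg, mul_comm]
      exact mul_dvd_mul_left _ h4

end inp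

/-! ### Polynomials with bounded exponents -/

section pol

variable (d C : ℕ)

/-- the exponent vectors -/
abbrev Ex := Option (Fin d) → Fin (C + 1)

/-- the number of exponent vectors -/
def num : ℕ := Fintype.card (Ex d C)

/-- the exponent vector with the given number -/
noncomputable def en : Fin (num d C) ≃ Ex d C := (Fintype.equivFin (Ex d C)).symm

/-- the exponent vector -/
noncomputable def mo (e : Ex d C) : Option (Fin d) →₀ ℕ :=
  Finsupp.equivFunOnFinite.symm fun o => (e o : ℕ)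

/-- the polynomial with the given coefficients -/
noncomputable def pol (w : Fin (num d C) → ℤ) : MvPolynomial (Option (Fin d)) ℤ :=
  ∑ j, MvPolynomial.C (w j) * monomial (mo d C (en d C j)) 1

theorem eval_pol (w : Fin (num d C) → ℤ) (s : Option (Fin d) → ℤ) :
    eval s (pol d C w) = ∑ j, w j * ∏ o, s o ^ (en d C j o : ℕ) := by
  unfold pol
  rw [map_sum]
  refine Finset.sum_congr rfl fun j _ => ?_
  rw [map_mul, eval_C, eval_monomial, one_mul, Finsupp.prod_fintype _ _ fun i => pow_zero _]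
  rfl

theorem degree_mo (e : Ex d C) : ((mo d C e).sum fun _ n => n) ≤ (d + 1) * C := by
  rw [Finsupp.sum_fintype _ _ fun i => rfl]
  calc ∑ i, (mo d C e) i ≤ ∑ _i : Option (Fin d), C := by
        refine Finset.sum_le_sum fun i _ => ?_
        show (e i : ℕ) ≤ C
        omega
    _ = (d + 1) * C := by simp

theorem totalDegree_pol (w : Fin (num d C) → ℤ) : (pol d C w).totalDegree ≤ (d + 1) * C := by
  unfold pol
  refine totalDegree_finsetSum_le fun j _ => ?_
  refine (totalDegree_mul _ _).trans ?_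
  rw [totalDegree_C, zero_add]
  exact (totalDegree_monomial_le _ _).trans (degree_mo d C _)

theorem coeff_pol (w : Fin (num d C) → ℤ) (m : Option (Fin d) →₀ ℕ) :
    (pol d C w).coeff m = ∑ j, if mo d C (en d C j) = m then w j else 0 := by
  classical
  unfold pol
  rw [coeff_sum]
  refine Finset.sum_congr rfl fun j _ => ?_
  rw [coeff_C_mul, coeff_monomial]
  split_ifs <;> simp

theorem abs_coeff_pol {w : Fin (num d C) → ℤ} {B : ℤ} (hB : 0 ≤ B) (hw : ∀ j, |w j| ≤ B)
    (m : Option (Fin d) →₀ ℕ) : |(pol d C w).coeff m| ≤ num d C * B := by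
  rw [coeff_pol]
  refine (Finset.abs_sum_le_sum_abs _ _).trans ?_
  calc ∑ j, |if mo d C (en d C j) = m then w j else 0| ≤ ∑ _j : Fin (num d C), B := by
        refine Finset.sum_le_sum fun j _ => ?_
        split_ifs
        · exact hw j
        · rw [abs_zero]; exact hB
    _ = num d C * B := by simp

theorem mo_injective : Function.Injective (mo d C) := by
  intro e e' h
  funext o
  have := DFunLike.congr_fun h o
  exact Fin.ext this

theorem eq_pol {f : MvPolynomial (Option (Fin d)) ℤ} (hf : f.totalDegree ≤ C) :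
    f = pol d C fun j => f.coeff (mo d C (en d C j)) := by
  classical
  ext m
  rw [coeff_pol]
  by_cases hm : ∃ e : Ex d C, mo d C e = m
  · obtain ⟨e, rfl⟩ := hm
    rw [Finset.sum_eq_single ((en d C).symm e)]
    · simp
    · intro j _ hj
      rw [if_neg]
      intro h
      exact hj ((en d C).injective (by rw [Equiv.apply_symm_apply]; exact mo_injective d C h))
    · intro h
      exact absurd (Finset.mem_univ _) h
  · have h1 : f.coeff m = 0 := by
      by_contra h0
      apply hm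
      have h2 : ∀ o, m o ≤ C := by
        intro o
        by_contra h3
        push Not at h3
        apply h0
        apply coeff_eq_zero_of_totalDegree_lt
        refine lt_of_le_of_lt hf (lt_of_lt_of_le h3 ?_)
        by_cases ho : o ∈ m.support
        · exact Finset.single_le_sum (f := fun i => m i) (fun i _ => Nat.zero_le _) ho
        · rw [Finsupp.notMem_support_iff.1 ho]
          exact Nat.zero_le _
      refine ⟨fun o => ⟨m o, by have := h2 o; omega⟩, ?_⟩
      ext o
      rfl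
    rw [h1, Finset.sum_eq_zero]
    intro j _
    rw [if_neg]
    intro h
    exact hm ⟨_, h⟩

variable {d C}

theorem common_den {k : ℕ} (lam : Fin k → ℚ) : ∃ (q : ℤ) (n : Fin k → ℤ), q ≠ 0 ∧
    ∀ l, (q : ℚ) * lam l = n l := by
  refine ⟨∏ l, ((lam l).den : ℤ), fun l => (lam l).num * ∏ l' ∈ Finset.univ.erase l,
    ((lam l').den : ℤ), ?_, fun l => ?_⟩
  · rw [Finset.prod_ne_zero_iff]
    intro l _
    exact_mod_cast (lam l).den_nz
  · rw [← Finset.mul_prod_erase Finset.univ _ (Finset.mem_univ l)]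
    push_cast
    have := Rat.mul_den_eq_num (lam l)
    rw [← this]
    ring

theorem key (hk : S_ker) {N : ℕ} {Om : Finset (Fin N → ℤ)}
    {sp : (Fin N → ℤ) → Option (Fin d) → ℤ} {B : ℤ} (hB : 1 ≤ B)
    (hsp : ∀ t ∈ Om, ∀ e : Ex d C, |∏ o, sp t o ^ (e o : ℕ)| ≤ B)
    {h f : MvPolynomial (Option (Fin d)) ℤ} (hf : f.totalDegree ≤ C)
    (hvan : ∀ t ∈ Om, eval (sp t) f = 0)
    (hall : ∀ w : Fin (num d C) → ℤ, (∀ j, |w j| ≤ ((num d C).factorial : ℤ) * B ^ (num d C)) →
      (∀ t ∈ Om, eval (sp t) (pol d C w) = 0) → InP h (pol d C w)) : InP h f := by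
  obtain ⟨k, w, lam, h1, h2⟩ := hk (num d C) {t // t ∈ Om}
    (fun t j => ∏ o, sp t.1 o ^ (en d C j o : ℕ)) B hB (fun t j => hsp t.1 t.2 _)
    (fun j => ((f.coeff (mo d C (en d C j)) : ℤ) : ℚ)) (by
      intro t
      have h3 := hvan t.1 t.2
      rw [eq_pol d C hf, eval_pol] at h3
      have h4 : ((∑ j, f.coeff (mo d C (en d C j)) * ∏ o, sp t.1 o ^ (en d C j o : ℕ) : ℤ) : ℚ)
          = 0 := by exact_mod_cast h3
      push_cast at h4 ⊢
      rw [← h4]
      exact Finset.sum_congr rfl fun j _ => mul_comm _ _)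
  obtain ⟨q, n, hq, hn⟩ := common_den lam
  have h3 : ∀ l, InP h (pol d C (w l)) := by
    intro l
    refine hall (w l) (h1 l).2 fun t ht => ?_
    rw [eval_pol, ← (h1 l).1 ⟨t, ht⟩]
    exact Finset.sum_congr rfl fun j _ => mul_comm _ _
  have h4 : ∀ j, q * f.coeff (mo d C (en d C j)) = ∑ l, n l * w l j := by
    intro j
    have h5 : ((q * f.coeff (mo d C (en d C j)) : ℤ) : ℚ) = ((∑ l, n l * w l j : ℤ) : ℚ) := by
      push_cast
      rw [h2 j, Finset.mul_sum]
      refine Finset.sum_congr rfl fun l _ => ?_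
      rw [← hn l]
      ring
    exact_mod_cast h5
  have h5 : MvPolynomial.C q * f = ∑ l, MvPolynomial.C (n l) * pol d C (w l) := by
    conv_lhs => rw [eq_pol d C hf]
    unfold pol
    simp only [Finset.mul_sum]
    rw [Finset.sum_comm]
    refine Finset.sum_congr rfl fun j _ => ?_
    rw [← mul_assoc, ← map_mul, h4 j, map_sum, Finset.sum_mul]
    refine Finset.sum_congr rfl fun l _ => ?_
    rw [map_mul, mul_assoc]
  have h6 : InP h (rename some (MvPolynomial.C q) * f) := by
    rw [rename_C, h5]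
    exact inP_sum _ _ fun l _ => inP_mul _ (h3 l)
  exact inP_of_mul (by rw [ne_eq, MvPolynomial.C_eq_zero]; exact hq) h6

end pol

theorem irr (hk : S_ker) : S_irr := by
  intro Y N Om hY hBig hBdd G
  classical
  obtain ⟨C, hC⟩ := G.hPB
  obtain ⟨Cθ, hθ⟩ := G.θbd
  -- the nonconstant factors
  let V : ℕ → Finset (MvPolynomial (Option (Fin G.d)) ℤ) := fun ν =>
    ((UniqueFactorizationMonoid.factors (G.h ν)).filter fun f => 0 < f.totalDegree).toFinset
  have hVmem : ∀ ν f, f ∈ V ν ↔ f ∈ UniqueFactorizationMonoid.factors (G.h ν) ∧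
      0 < f.totalDegree := by
    intro ν f
    rw [Multiset.mem_toFinset, Multiset.mem_filter]
  have hVcard : ∀ᶠ ν in (Uf : Filter ℕ), (V ν).card ≤ C := by
    filter_upwards [hC, G.hne] with ν h1 h2
    have h3 : ∀ f ∈ UniqueFactorizationMonoid.factors (G.h ν), f ≠ 0 := fun f hf =>
      (UniqueFactorizationMonoid.irreducible_of_factor f hf).ne_zero
    refine (Multiset.toFinset_card_le _).trans ((card_filter_le _ h3).trans ?_)
    obtain ⟨u, hu⟩ := UniqueFactorizationMonoid.factors_prod h2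
    have h4 : (UniqueFactorizationMonoid.factors (G.h ν)).prod ≠ 0 := by
      intro h0
      rw [Multiset.prod_eq_zero_iff] at h0
      exact h3 0 h0 rfl
    have h5 := totalDegree_mul_of_isDomain h4 u.ne_zero
    rw [hu] at h5
    have := h1.1
    omega
  have hVex : ∀ᶠ ν in (Uf : Filter ℕ), ∀ t ∈ Om ν, ∃ f ∈ V ν, eval (G.sp ν t) f = 0 := by
    filter_upwards [G.ev_h, G.hne] with ν h1 h2 t ht
    have h3 : eval (G.sp ν t) (G.h ν) = 0 := h1 t ht
    obtain ⟨u, hu⟩ := UniqueFactorizationMonoid.factors_prod h2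
    rw [← hu, map_mul] at h3
    have h4 : eval (G.sp ν t) (u : MvPolynomial (Option (Fin G.d)) ℤ) ≠ 0 :=
      (u.isUnit.map (eval (G.sp ν t))).ne_zero
    have h5 := (mul_eq_zero.1 h3).resolve_right h4
    rw [map_multiset_prod, Multiset.prod_eq_zero_iff, Multiset.mem_map] at h5
    obtain ⟨f, hf, hf0⟩ := h5
    refine ⟨f, (hVmem ν f).2 ⟨hf, ?_⟩, hf0⟩
    by_contra h6
    have h7 : f.totalDegree = 0 := by omega
    rw [totalDegree_eq_zero_iff_eq_C] at h7
    rw [h7, eval_C] at hf0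
    rw [hf0, map_zero] at h7
    exact (UniqueFactorizationMonoid.irreducible_of_factor f hf).ne_zero h7
  let F : ℕ → (Fin N → ℤ) → MvPolynomial (Option (Fin G.d)) ℤ := fun ν t =>
    if hh : ∃ f ∈ V ν, eval (G.sp ν t) f = 0 then hh.choose else 0
  have hF : ∀ᶠ ν in (Uf : Filter ℕ), ∀ t ∈ Om ν, F ν t ∈ V ν ∧ eval (G.sp ν t) (F ν t) = 0 := by
    filter_upwards [hVex] with ν h1 t ht
    have h2 := h1 t ht
    have h3 : F ν t = h2.choose := dif_pos h2
    rw [h3]
    exact h2.choose_spec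
  obtain ⟨Om1, hsub, hbig1, hconst⟩ := hBig.fiber F V
    (by filter_upwards [hF] with ν h1 t ht using (h1 t ht).1)
    ((Few.const hY C).mono hVcard)
  have hf : ∀ᶠ ν in (Uf : Filter ℕ), ∃ f ∈ V ν, ∀ t ∈ Om1 ν, eval (G.sp ν t) f = 0 := by
    filter_upwards [hF, hsub, hbig1.nonempty, hconst] with ν h1 h2 h3 h4
    obtain ⟨t0, ht0⟩ := h3
    refine ⟨F ν t0, (h1 t0 (h2 ht0)).1, fun t ht => ?_⟩
    rw [h4 t0 ht0 t ht]
    exact (h1 t (h2 ht)).2
  -- the bound for the monomials
  have hmon : ∀ᶠ ν in (Uf : Filter ℕ), ∀ t ∈ Om1 ν, ∀ e : Ex G.d C,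
      |∏ o, G.sp ν t o ^ (e o : ℕ)| ≤ ((Y ν : ℤ) + 2) ^ (max Cθ 1 * C * (G.d + 1)) := by
    filter_upwards [hθ, hBdd, hsub] with ν h1 h2 h3 t ht e
    have y1 : (1 : ℤ) ≤ (Y ν : ℤ) + 2 := by omega
    have h4 : ∀ o, |G.sp ν t o| ≤ ((Y ν : ℤ) + 2) ^ (max Cθ 1) := by
      intro o
      rcases o with _ | b
      · exact (h1 t (h3 ht)).trans (pow_le_pow_right₀ y1 (le_max_left _ _))
      · have h5 : |G.sp ν t (some b)| ≤ (Y ν : ℤ) := (h2 t (h3 ht) (G.ι b)).2
        calc |G.sp ν t (some b)| ≤ ((Y ν : ℤ) + 2) ^ 1 := by rw [pow_one]; omega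
          _ ≤ _ := pow_le_pow_right₀ y1 (le_max_right _ _)
    rw [Finset.abs_prod]
    calc ∏ o, |G.sp ν t o ^ (e o : ℕ)| ≤ ∏ _o : Option (Fin G.d),
          ((Y ν : ℤ) + 2) ^ (max Cθ 1 * C) := by
          refine Finset.prod_le_prod (fun o _ => abs_nonneg _) fun o _ => ?_
          rw [abs_pow, pow_mul]
          refine (pow_le_pow_left₀ (abs_nonneg _) (h4 o) _).trans ?_
          exact pow_le_pow_right₀ (one_le_pow₀ y1) (by omega)
      _ = _ := by
          rw [Finset.prod_const, ← pow_mul]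
          simp
  set C1 := max Cθ 1 * C * (G.d + 1) with hC1
  have hall : ∀ᶠ ν in (Uf : Filter ℕ), ∀ w : Fin (num G.d C) → ℤ,
      (∀ j, |w j| ≤ ((num G.d C).factorial : ℤ) * (((Y ν : ℤ) + 2) ^ C1) ^ (num G.d C)) →
      (∀ t ∈ Om1 ν, eval (G.sp ν t) (pol G.d C w) = 0) → InP (G.h ν) (pol G.d C w) := by
    by_contra hcon
    rw [← ev_not] at hcon
    have hcon2 : ∀ᶠ ν in (Uf : Filter ℕ), ∃ w : Fin (num G.d C) → ℤ,
        (∀ j, |w j| ≤ ((num G.d C).factorial : ℤ) * (((Y ν : ℤ) + 2) ^ C1) ^ (num G.d C)) ∧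
        (∀ t ∈ Om1 ν, eval (G.sp ν t) (pol G.d C w) = 0) ∧ ¬ InP (G.h ν) (pol G.d C w) := by
      filter_upwards [hcon] with ν h1
      push Not at h1
      exact h1
    obtain ⟨w, hw⟩ := hcon2.choice
    have h1 : PB Y fun ν => pol G.d C (w ν) := by
      refine ⟨max ((G.d + 1) * C) (C1 * num G.d C + 1), ?_⟩
      filter_upwards [hw, hY (num G.d C * (num G.d C).factorial)] with ν h2 h3
      have y1 : (1 : ℤ) ≤ (Y ν : ℤ) + 2 := by omega
      refine ⟨(totalDegree_pol _ _ _).trans (le_max_left _ _), fun m => ?_⟩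
      have h4 : (0 : ℤ) ≤ ((num G.d C).factorial : ℤ) * (((Y ν : ℤ) + 2) ^ C1) ^ (num G.d C) := by
        positivity
      refine (abs_coeff_pol _ _ h4 h2.1 m).trans ?_
      have h5 : ((num G.d C * (num G.d C).factorial : ℕ) : ℤ) ≤ (Y ν : ℤ) + 2 := by
        have : ((num G.d C * (num G.d C).factorial : ℕ) : ℤ) ≤ (Y ν : ℤ) := by exact_mod_cast h3
        omega
      calc (num G.d C : ℤ) * (((num G.d C).factorial : ℤ) * (((Y ν : ℤ) + 2) ^ C1) ^ (num G.d C))
          = ((num G.d C * (num G.d C).factorial : ℕ) : ℤ) * ((Y ν : ℤ) + 2) ^ (C1 * num G.d C) := by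
            rw [← pow_mul]; push_cast; ring
        _ ≤ ((Y ν : ℤ) + 2) * ((Y ν : ℤ) + 2) ^ (C1 * num G.d C) :=
            mul_le_mul_of_nonneg_right h5 (by positivity)
        _ = ((Y ν : ℤ) + 2) ^ (C1 * num G.d C + 1) := by rw [pow_succ]; ring
        _ ≤ _ := pow_le_pow_right₀ y1 (le_max_right _ _)
    have h2 := G.div _ h1 (hbig1.mono (by
      filter_upwards [hw, hsub] with ν h2 h3 t ht
      rw [Finset.mem_filter]
      exact ⟨h3 ht, h2.2.1 t ht⟩))
    obtain ⟨ν, h3, h4⟩ := (h2.and hw).exists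
    exact h4.2.2 h3
  filter_upwards [G.hne, G.hone, hall, hf, hC, hmon] with ν h1 h2 h3 h4 h5 h6
  obtain ⟨f, hfV, hf0⟩ := h4
  have hfac := ((hVmem ν f).1 hfV).1
  have hirr := UniqueFactorizationMonoid.irreducible_of_factor f hfac
  obtain ⟨g', hg'⟩ := UniqueFactorizationMonoid.dvd_of_mem_factors hfac
  have hg0 : g' ≠ 0 := by
    rintro rfl
    rw [mul_zero] at hg'
    exact h1 hg'
  have hdeg : f.totalDegree ≤ C := by
    have h7 := totalDegree_mul_of_isDomain hirr.ne_zero hg0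
    rw [← hg'] at h7
    have := h5.1
    omega
  have y1 : (1 : ℤ) ≤ ((Y ν : ℤ) + 2) ^ C1 := one_le_pow₀ (by omega)
  obtain ⟨c, hc, hd⟩ := key hk y1 h6 hdeg hf0 h3
  have h8 : g' ∣ rename some c := by
    rw [hg', mul_comm (rename some c) f] at hd
    exact (mul_dvd_mul_iff_left hirr.ne_zero).1 hd
  obtain ⟨g, rfl⟩ := exists_rename_of_dvd hc h8
  exact irr_of_factor h1 h2 hirr hg'

end Pool.Agent.N368.HB
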